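import Pool.Agent.Helper7.EC_E.GoalsS

/-!
# MP_ecc237_nt, PART E, packet JV: values of the integrals `J1`, `J4`
-/

set_option autoImplicit false

open MeasureTheory Filter Topology Set

namespace EC237.ZE.PkJV

/-- the weight times the summand -/
noncomputable def tm (k : ℤ) (j : ℕ) (t : ℝ) : ℝ :=
  w0 j * (|(k:ℝ)| + 2 * j) / (t ^ 2 + (|(k:ℝ)| + 2 * j) ^ 2) ^ 2

theorem w0_nonneg (j : ℕ) : 0 ≤ w0 j := by
  unfold w0; split_ifs <;> norm_num

theorem w0_le (j : ℕ) : w0 j ≤ 1 := by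
  unfold w0; split_ifs <;> norm_num

theorem A_ge {k : ℤ} (hk : k ≠ 0) (j : ℕ) : (1:ℝ) + j ≤ |(k:ℝ)| + 2 * j := by
  have h1 : (1:ℝ) ≤ |(k:ℝ)| := by
    have := Int.one_le_abs hk
    exact_mod_cast this
  have h2 : (0:ℝ) ≤ j := Nat.cast_nonneg j
  linarith

theorem summ : Summable (fun j : ℕ => 1 / ((1:ℝ) + j) ^ 2) := by
  have h := (summable_nat_add_iff 1).2 (Real.summable_one_div_nat_pow.2 (show 1 < 2 by norm_num))
  refine h.congr (fun j => ?_)
  push_cast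
  rw [add_comm]

theorem tm_cont {k : ℤ} (hk : k ≠ 0) (j : ℕ) : Continuous (tm k j) := by
  have hA := A_ge hk j
  have hj : (0:ℝ) ≤ j := Nat.cast_nonneg j
  unfold tm
  refine Continuous.div (by fun_prop) (by fun_prop) (fun t => ?_)
  have : 0 < t ^ 2 + (|(k:ℝ)| + 2 * j) ^ 2 := by
    have : 0 < (|(k:ℝ)| + 2 * j) := by linarith
    positivity
  positivity

theorem tm_nonneg (k : ℤ) (j : ℕ) (t : ℝ) : 0 ≤ tm k j t := by
  unfold tm
  have := w0_nonneg j
  positivity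

theorem tm_le {k : ℤ} (hk : k ≠ 0) (j : ℕ) (t : ℝ) : tm k j t ≤ 1 / ((1:ℝ) + j) ^ 2 := by
  have hA := A_ge hk j
  have hj : (0:ℝ) ≤ j := Nat.cast_nonneg j
  set A : ℝ := |(k:ℝ)| + 2 * j with hAd
  have hA0 : 0 < A := by linarith
  have hA1 : 1 ≤ A := by linarith
  have h1 : tm k j t ≤ 1 / A ^ 2 := by
    unfold tm
    rw [← hAd, div_le_div_iff₀ (by positivity) (by positivity)]
    have h2 : w0 j * A * A ^ 2 ≤ 1 * (A ^ 2) ^ 2 := by
      have := w0_le j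
      have h3 : w0 j * A ^ 3 ≤ 1 * A ^ 4 := by
        apply mul_le_mul this _ (by positivity) (by norm_num)
        nlinarith [pow_pos hA0 3]
      nlinarith
    have h3 : (A ^ 2) ^ 2 ≤ (t ^ 2 + A ^ 2) ^ 2 := by
      apply pow_le_pow_left₀ (by positivity)
      nlinarith [sq_nonneg t]
    linarith
  refine h1.trans ?_
  apply one_div_le_one_div_of_le (by positivity)
  exact pow_le_pow_left₀ (by positivity) hA 2

theorem tm_mul_le {k : ℤ} (hk : k ≠ 0) (j : ℕ) (t : ℝ) : |t| * tm k j t ≤ 1 / ((1:ℝ) + j) ^ 2 := by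
  have hA := A_ge hk j
  have hj : (0:ℝ) ≤ j := Nat.cast_nonneg j
  set A : ℝ := |(k:ℝ)| + 2 * j with hAd
  have hA0 : 0 < A := by linarith
  have h1 : |t| * tm k j t ≤ 1 / A ^ 2 := by
    unfold tm
    rw [← hAd, mul_div_assoc', div_le_div_iff₀ (by positivity) (by positivity)]
    have h2 : |t| * A ≤ t ^ 2 + A ^ 2 := by
      have := sq_abs t
      nlinarith [sq_nonneg (|t| - A), abs_nonneg t, sq_nonneg (|t|)]
    have h3 : |t| * (w0 j * A) ≤ t ^ 2 + A ^ 2 := by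
      have hw := w0_le j
      have hw0 := w0_nonneg j
      have : |t| * (w0 j * A) ≤ |t| * A := by
        apply mul_le_mul_of_nonneg_left _ (abs_nonneg t)
        nlinarith
      linarith
    have h4 : A ^ 2 ≤ t ^ 2 + A ^ 2 := by nlinarith [sq_nonneg t]
    calc |t| * (w0 j * A) * A ^ 2 ≤ (t ^ 2 + A ^ 2) * (t ^ 2 + A ^ 2) :=
          mul_le_mul h3 h4 (by positivity) (by positivity)
      _ = 1 * (t ^ 2 + A ^ 2) ^ 2 := by ring
  refine h1.trans ?_
  apply one_div_le_one_div_of_le (by positivity)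
  exact pow_le_pow_left₀ (by positivity) hA 2

theorem taur_eq (k : ℤ) (t : ℝ) : taur k t = t * ∑' j : ℕ, tm k j t := rfl

theorem taur_cont {k : ℤ} (hk : k ≠ 0) : Continuous (taur k) := by
  have h : Continuous (fun t : ℝ => ∑' j : ℕ, tm k j t) := by
    refine continuous_tsum (tm_cont hk) summ (fun j t => ?_)
    rw [Real.norm_eq_abs, abs_of_nonneg (tm_nonneg k j t)]
    exact tm_le hk j t
  exact continuous_id.mul h

noncomputable def CC : ℝ := ∑' j : ℕ, 1 / ((1:ℝ) + j) ^ 2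

theorem CC_nonneg : 0 ≤ CC := tsum_nonneg (fun j => by positivity)

theorem tm_summ {k : ℤ} (hk : k ≠ 0) (t : ℝ) : Summable (fun j => tm k j t) :=
  Summable.of_nonneg_of_le (fun j => tm_nonneg k j t) (fun j => tm_le hk j t) summ

theorem taur_bd {k : ℤ} (hk : k ≠ 0) (t : ℝ) : |taur k t| ≤ CC := by
  rw [taur_eq, abs_mul, abs_of_nonneg (tsum_nonneg (fun j => tm_nonneg k j t)), ← tsum_mul_left]
  exact Summable.tsum_le_tsum (fun j => tm_mul_le hk j t) ((tm_summ hk t).mul_left _) summ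

theorem taur_neg (k : ℤ) (t : ℝ) : taur k (-t) = -taur k t := by
  rw [taur_eq, taur_eq]
  simp only [tm, neg_sq]
  ring

theorem tauc_eq (k : ℤ) (t : ℝ) : tauc k (t:ℂ) = ((taur k t : ℝ) : ℂ) := by
  unfold tauc taur
  rw [Complex.ofReal_mul, Complex.ofReal_tsum]
  congr 2
  ext j
  push_cast
  rfl

/-- real version of `ph1` -/
noncomputable def p1 (k : ℤ) (t : ℝ) : ℝ := (t ^ 2 - (k:ℝ) ^ 2) / (t ^ 2 + (k:ℝ) ^ 2) ^ 2

theorem ph1_eq (k : ℤ) (t : ℝ) : ph1 k (t:ℂ) = ((p1 k t : ℝ) : ℂ) := by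
  unfold ph1 p1
  push_cast
  rfl

theorem k2_ge {k : ℤ} (hk : k ≠ 0) : (1:ℝ) ≤ (k:ℝ) ^ 2 := by
  have h1 : (1:ℝ) ≤ |(k:ℝ)| := by
    have := Int.one_le_abs hk
    exact_mod_cast this
  rw [← sq_abs]
  nlinarith

theorem den_ge {k : ℤ} (hk : k ≠ 0) (t : ℝ) : 1 + t ^ 2 ≤ t ^ 2 + (k:ℝ) ^ 2 := by
  have := k2_ge hk
  linarith

theorem p1_bd {k : ℤ} (hk : k ≠ 0) (t : ℝ) : |p1 k t| ≤ 1 := by
  have h := den_ge hk t
  have h1 := k2_ge hk
  have h0 : 0 < t ^ 2 + (k:ℝ) ^ 2 := by nlinarith [sq_nonneg t]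
  unfold p1
  rw [abs_div, abs_of_pos (by positivity : 0 < (t ^ 2 + (k:ℝ) ^ 2) ^ 2), div_le_one (by positivity)]
  have h2 : |t ^ 2 - (k:ℝ) ^ 2| ≤ t ^ 2 + (k:ℝ) ^ 2 := by
    rw [abs_le]
    constructor <;> nlinarith [sq_nonneg t, sq_nonneg (k:ℝ)]
  nlinarith [sq_nonneg t]

theorem p1_cont {k : ℤ} (hk : k ≠ 0) : Continuous (p1 k) := by
  have h1 := k2_ge hk
  unfold p1
  refine Continuous.div (by fun_prop) (by fun_prop) (fun t => ?_)
  have : 0 < t ^ 2 + (k:ℝ) ^ 2 := by nlinarith [sq_nonneg t]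
  positivity

theorem integ_of {k : ℤ} (hk : k ≠ 0) (g : ℝ → ℝ) (hg : Continuous g) (C : ℝ)
    (hC : ∀ t, |g t| ≤ C) : Integrable (fun t : ℝ => g t / (t ^ 2 + (k:ℝ) ^ 2)) := by
  have hi : Integrable (fun t : ℝ => C * (1 + t ^ 2)⁻¹) := integrable_inv_one_add_sq.const_mul C
  refine hi.mono' ?_ (Eventually.of_forall (fun t => ?_))
  · refine Continuous.aestronglyMeasurable ?_
    refine hg.div (by fun_prop) (fun t => ?_)
    have h := den_ge hk t
    nlinarith [sq_nonneg t]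
  · have h := den_ge hk t
    have h1 : 0 < 1 + t ^ 2 := by positivity
    have h0 : 0 < t ^ 2 + (k:ℝ) ^ 2 := by linarith
    rw [Real.norm_eq_abs, abs_div, abs_of_pos h0, ← div_eq_mul_inv]
    have hC0 : 0 ≤ C := (abs_nonneg _).trans (hC t)
    exact div_le_div₀ hC0 (hC t) h1 h

theorem thm (h1 : G_MP) : G_JV := by
  intro k hk
  constructor
  · have e1 : ∀ t : ℝ, F1 k (t:ℂ) =
        ((-(64 * Real.pi ^ 2 / 3) * (taur k t ^ 2 / (t ^ 2 + (k:ℝ) ^ 2)) +
          32 * Real.pi * w1 * ((taur k t * p1 k t) / (t ^ 2 + (k:ℝ) ^ 2)) : ℝ) : ℂ) := by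
      intro t
      unfold F1 aF cF
      rw [tauc_eq, ph1_eq]
      push_cast
      ring
    have i1 : Integrable (fun t : ℝ => taur k t ^ 2 / (t ^ 2 + (k:ℝ) ^ 2)) := by
      refine integ_of hk _ ((taur_cont hk).pow 2) (CC ^ 2) (fun t => ?_)
      rw [abs_pow]
      exact pow_le_pow_left₀ (abs_nonneg _) (taur_bd hk t) 2
    have i2 : Integrable (fun t : ℝ => (taur k t * p1 k t) / (t ^ 2 + (k:ℝ) ^ 2)) := by
      refine integ_of hk _ ((taur_cont hk).mul (p1_cont hk)) CC (fun t => ?_)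
      rw [abs_mul]
      calc |taur k t| * |p1 k t| ≤ CC * 1 :=
            mul_le_mul (taur_bd hk t) (p1_bd hk t) (abs_nonneg _) CC_nonneg
        _ = CC := mul_one _
    have z2 : ∫ t : ℝ, (taur k t * p1 k t) / (t ^ 2 + (k:ℝ) ^ 2) = 0 := by
      have h2 := integral_neg_eq_self (fun t : ℝ => (taur k t * p1 k t) / (t ^ 2 + (k:ℝ) ^ 2))
        volume
      have h3 : (fun t : ℝ => (taur k (-t) * p1 k (-t)) / ((-t) ^ 2 + (k:ℝ) ^ 2)) =
          fun t : ℝ => -((taur k t * p1 k t) / (t ^ 2 + (k:ℝ) ^ 2)) := by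
        ext t
        rw [taur_neg]
        unfold p1
        rw [neg_sq]
        ring
      rw [h3, integral_neg] at h2
      linarith
    unfold J1
    rw [integral_congr_ae (Eventually.of_forall e1), integral_complex_ofReal,
      integral_add (i1.const_mul _) (i2.const_mul _), integral_const_mul, integral_const_mul, z2]
    simp
  · have e4 : ∀ t : ℝ, F4 k (t:ℂ) =
        (((k:ℝ) ^ 2 * (2 * (k:ℝ) ^ 2 - 6 * t ^ 2) / (t ^ 2 + (k:ℝ) ^ 2) ^ 5 : ℝ) : ℂ) := by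
      intro t
      have h := den_ge hk t
      have h0 : (t ^ 2 + (k:ℝ) ^ 2) ≠ 0 := by nlinarith [sq_nonneg t]
      have h0' : ((t:ℂ) ^ 2 + (k:ℂ) ^ 2) ≠ 0 := by exact_mod_cast h0
      unfold F4 ph ph2
      push_cast
      field_simp
    unfold J4
    rw [integral_congr_ae (Eventually.of_forall e4), integral_complex_ofReal, (h1 k hk).2]

end EC237.ZE.PkJV
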